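import Mathlib

/-!
# A two-frame lower bound for `Tr (X - ρ)_+^2`
-/

open scoped BigOperators ComplexOrder MatrixOrder
open Matrix

namespace Pool.Agent.Lib_helper28.KS

variable {κ : Type} [Fintype κ] [DecidableEq κ]

/-- `F diag(x) Fᴴ` -/
noncomputable def cj (F : Matrix κ κ ℂ) (x : κ → ℝ) : Matrix κ κ ℂ :=
  F * Matrix.diagonal (fun i => (x i : ℂ)) * Fᴴ

theorem cj_herm (F : Matrix κ κ ℂ) (x : κ → ℝ) : (cj F x)ᴴ = cj F x := by
  unfold cj
  rw [conjTranspose_mul, conjTranspose_mul, conjTranspose_conjTranspose,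
    diagonal_conjTranspose, Matrix.mul_assoc]
  congr 2
  ext i j
  by_cases h : i = j
  · subst h; simp
  · simp [h]

theorem cj_mul {F : Matrix κ κ ℂ} (hF : Fᴴ * F = 1) (x x' : κ → ℝ) :
    cj F x * cj F x' = cj F (fun i => x i * x' i) := by
  unfold cj
  calc F * diagonal (fun i => (x i : ℂ)) * Fᴴ * (F * diagonal (fun i => (x' i : ℂ)) * Fᴴ)
      = F * diagonal (fun i => (x i : ℂ)) * (Fᴴ * F) * diagonal (fun i => (x' i : ℂ)) * Fᴴ := by
        simp only [Matrix.mul_assoc]
    _ = _ := by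
        rw [hF, Matrix.mul_one, Matrix.mul_assoc F, diagonal_mul_diagonal]
        simp

theorem trace_cj (F X : Matrix κ κ ℂ) (x : κ → ℝ) :
    (X * cj F x).trace = ∑ i, (x i : ℂ) * (Fᴴ * X * F) i i := by
  unfold cj
  rw [← Matrix.mul_assoc, ← Matrix.mul_assoc, Matrix.trace_mul_comm, ← Matrix.mul_assoc,
    ← Matrix.mul_assoc, Matrix.trace]
  apply Finset.sum_congr rfl
  intro i _
  rw [diag_apply, mul_diagonal, mul_comm]

theorem trace_cj1 {F : Matrix κ κ ℂ} (hF : Fᴴ * F = 1) (x : κ → ℝ) :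
    (cj F x).trace = ∑ i, (x i : ℂ) := by
  have := trace_cj F 1 x
  rw [Matrix.one_mul, Matrix.mul_one, hF] at this
  simpa using this

theorem trace_cj2 (F H X : Matrix κ κ ℂ) (x y : κ → ℝ) :
    (X * (cj F x * cj H y)).trace =
      ∑ i, ∑ j, (x i : ℂ) * (y j : ℂ) * ((Fᴴ * H) i j * (Hᴴ * X * F) j i) := by
  rw [← Matrix.mul_assoc, trace_cj]
  have h : Hᴴ * (X * cj F x) * H = (Hᴴ * X * F) * diagonal (fun i => (x i : ℂ)) * (Fᴴ * H) := by
    unfold cj
    simp only [Matrix.mul_assoc]
  rw [h, Finset.sum_comm]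
  apply Finset.sum_congr rfl
  intro j _
  rw [Matrix.mul_apply, Finset.mul_sum]
  apply Finset.sum_congr rfl
  intro i _
  rw [mul_diagonal]
  ring

/-- overlaps -/
noncomputable def ov (F H : Matrix κ κ ℂ) (i j : κ) : ℝ := Complex.normSq ((Fᴴ * H) i j)

theorem ov_nonneg (F H : Matrix κ κ ℂ) (i j : κ) : 0 ≤ ov F H i j := Complex.normSq_nonneg _

theorem trace_cj12 (F H : Matrix κ κ ℂ) (x y : κ → ℝ) :
    ((cj F x * cj H y).trace).re = ∑ i, ∑ j, x i * y j * ov F H i j := by
  have h := trace_cj2 F H 1 x y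
  rw [Matrix.one_mul, Matrix.mul_one] at h
  rw [h, Complex.re_sum]
  apply Finset.sum_congr rfl
  intro i _
  rw [Complex.re_sum]
  apply Finset.sum_congr rfl
  intro j _
  have h1 : (Hᴴ * F) j i = (starRingEnd ℂ) ((Fᴴ * H) i j) := by
    have : Hᴴ * F = (Fᴴ * H)ᴴ := by
      rw [conjTranspose_mul, conjTranspose_conjTranspose]
    rw [this, conjTranspose_apply]
    rfl
  rw [h1, Complex.mul_conj, ← Complex.ofReal_mul, ← Complex.ofReal_mul, Complex.ofReal_re]
  rfl

/-- the variational bound -/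
theorem pb {X S : Matrix κ κ ℂ} (hX : X.IsHermitian) (hS : S.IsHermitian) (ρ : ℝ) :
    2 * ((X * (S * S)).trace).re - 2 * ρ * ((S * S).trace).re - ((S * S * (S * S)).trace).re ≤
      ∑ k, (max (hX.eigenvalues k - ρ) 0) ^ 2 := by
  set E : Matrix κ κ ℂ := (hX.eigenvectorUnitary : Matrix κ κ ℂ) with hE
  have hEE : Eᴴ * E = 1 := by
    have := Unitary.star_mul_self_of_mem hX.eigenvectorUnitary.2
    rwa [star_eq_conjTranspose] at this
  have hEE' : E * Eᴴ = 1 := by
    have := Unitary.mul_star_self_of_mem hX.eigenvectorUnitary.2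
    rwa [star_eq_conjTranspose] at this
  have hXE : X = cj E hX.eigenvalues := by
    have := hX.spectral_theorem
    rw [Unitary.conjStarAlgAut_apply] at this
    exact this
  set T : Matrix κ κ ℂ := (S * E)ᴴ * (S * E) with hT
  have hT' : T = Eᴴ * (S * S) * E := by
    rw [hT, conjTranspose_mul, hS.eq]
    simp only [Matrix.mul_assoc]
  have hTh : T.IsHermitian := by
    rw [hT]; exact isHermitian_conjTranspose_mul_self _
  have hTd : ∀ k, 0 ≤ (T k k).re := by
    intro k
    have h1 := (posSemidef_conjTranspose_mul_self (S * E)).diag_nonneg (i := k)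
    exact (Complex.le_def.1 h1).1
  have e1 : ((X * (S * S)).trace).re = ∑ k, hX.eigenvalues k * (T k k).re := by
    rw [Matrix.trace_mul_comm]
    conv_lhs => rw [hXE]
    rw [trace_cj, Complex.re_sum, ← hT']
    apply Finset.sum_congr rfl
    intro k _
    rw [Complex.re_ofReal_mul]
  have e2 : ((S * S).trace).re = ∑ k, (T k k).re := by
    have : (S * S).trace = T.trace := by
      rw [hT', Matrix.trace_mul_cycle, hEE', Matrix.one_mul]
    rw [this, Matrix.trace, Complex.re_sum]
    rfl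
  have e3 : ∑ k, (T k k).re ^ 2 ≤ ((S * S * (S * S)).trace).re := by
    have h1 : (S * S * (S * S)).trace = (T * T).trace := by
      have h2 : T * T = Eᴴ * (S * S * (S * S)) * E := by
        rw [hT']
        calc Eᴴ * (S * S) * E * (Eᴴ * (S * S) * E)
            = Eᴴ * (S * S) * (E * Eᴴ) * (S * S) * E := by simp only [Matrix.mul_assoc]
          _ = _ := by rw [hEE', Matrix.mul_one]; simp only [Matrix.mul_assoc]
      rw [h2, Matrix.trace_mul_cycle Eᴴ (S * S * (S * S)) E, hEE', Matrix.one_mul]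
    rw [h1, Matrix.trace, Complex.re_sum]
    apply Finset.sum_le_sum
    intro k _
    rw [diag_apply, Matrix.mul_apply, Complex.re_sum]
    have h3 : ∀ l, (T k l * T l k).re = Complex.normSq (T k l) := by
      intro l
      have : T l k = (starRingEnd ℂ) (T k l) := by
        conv_lhs => rw [← hTh.eq]
        rw [conjTranspose_apply]
        rfl
      rw [this, Complex.mul_conj, Complex.ofReal_re]
    simp only [h3]
    calc (T k k).re ^ 2 ≤ Complex.normSq (T k k) := by
          rw [Complex.normSq_apply]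
          nlinarith [mul_self_nonneg (T k k).im]
      _ ≤ _ := Finset.single_le_sum (f := fun l => Complex.normSq (T k l))
          (fun l _ => Complex.normSq_nonneg _) (Finset.mem_univ k)
  rw [e1, e2]
  have e4 : 2 * ∑ k, hX.eigenvalues k * (T k k).re - 2 * ρ * ∑ k, (T k k).re -
      ∑ k, (T k k).re ^ 2 ≤ ∑ k, (max (hX.eigenvalues k - ρ) 0) ^ 2 := by
    rw [Finset.mul_sum, Finset.mul_sum, ← Finset.sum_sub_distrib, ← Finset.sum_sub_distrib]
    apply Finset.sum_le_sum
    intro k _
    have ht := hTd k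
    rcases le_total (hX.eigenvalues k - ρ) 0 with h | h
    · rw [max_eq_right h]
      nlinarith [mul_nonneg ht (neg_nonneg.2 h), sq_nonneg (T k k).re]
    · rw [max_eq_left h]
      nlinarith [sq_nonneg (hX.eigenvalues k - ρ - (T k k).re)]
  linarith

/-- cyclicity for words of length four -/
theorem cyc (a b c d : Matrix κ κ ℂ) : (a * b * (c * d)).trace = (b * c * (d * a)).trace := by
  have h1 : a * b * (c * d) = a * (b * (c * d)) := by simp only [Matrix.mul_assoc]
  have h2 : b * c * (d * a) = b * (c * d) * a := by simp only [Matrix.mul_assoc]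
  rw [h1, h2, Matrix.trace_mul_comm]

theorem word4 {a b : Matrix κ κ ℂ} :
    (((a - b) * (a - b) * ((a - b) * (a - b))).trace) =
      (a * a * (a * a)).trace + (b * b * (b * b)).trace - 4 * (a * a * (a * b)).trace -
        4 * (a * b * (b * b)).trace + 4 * (a * a * (b * b)).trace +
        2 * (a * b * (a * b)).trace := by
  have e : (a - b) * (a - b) * ((a - b) * (a - b)) =
      a * a * (a * a) - a * a * (a * b) - a * a * (b * a) + a * a * (b * b)
      - a * b * (a * a) + a * b * (a * b) + a * b * (b * a) - a * b * (b * b)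
      - b * a * (a * a) + b * a * (a * b) + b * a * (b * a) - b * a * (b * b)
      + b * b * (a * a) - b * b * (a * b) - b * b * (b * a) + b * b * (b * b) := by
    noncomm_ring
  rw [e]
  simp only [Matrix.trace_add, Matrix.trace_sub]
  have c1 : (a * a * (b * a)).trace = (a * a * (a * b)).trace := by
    rw [cyc a a a b]
  have c2 : (a * b * (a * a)).trace = (a * a * (a * b)).trace := by
    rw [cyc a a a b, cyc a a b a]
  have c3 : (b * a * (a * a)).trace = (a * a * (a * b)).trace := by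
    rw [cyc b a a a]
  have c4 : (a * b * (b * a)).trace = (a * a * (b * b)).trace := by
    rw [cyc a a b b]
  have c5 : (b * b * (a * a)).trace = (a * a * (b * b)).trace := by
    rw [cyc a a b b, cyc a b b a]
  have c6 : (b * a * (a * b)).trace = (a * a * (b * b)).trace := by
    rw [cyc b a a b]
  have c7 : (b * a * (b * a)).trace = (a * b * (a * b)).trace := by
    rw [cyc b a b a]
  have c8 : (b * b * (b * a)).trace = (a * b * (b * b)).trace := by
    rw [cyc a b b b]
  have c9 : (b * b * (a * b)).trace = (a * b * (b * b)).trace := by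
    rw [cyc a b b b, cyc b b b a]
  have c10 : (b * a * (b * b)).trace = (a * b * (b * b)).trace := by
    rw [cyc b a b b]
  rw [c1, c2, c3, c4, c5, c6, c7, c8, c9, c10]
  ring

theorem t11_le {a b : Matrix κ κ ℂ} (ha : aᴴ = a) (hb : bᴴ = b) :
    ((a * b * (a * b)).trace).re ≤ ((a * a * (b * b)).trace).re := by
  have h1 := (posSemidef_conjTranspose_mul_self (a * b - b * a)).trace_nonneg
  have h2 := (Complex.le_def.1 h1).1
  have e : (a * b - b * a)ᴴ * (a * b - b * a) =
      b * a * (a * b) - b * a * (b * a) - a * b * (a * b) + a * b * (b * a) := by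
    rw [conjTranspose_sub, conjTranspose_mul, conjTranspose_mul, ha, hb]
    noncomm_ring
  rw [e] at h2
  simp only [Matrix.trace_add, Matrix.trace_sub] at h2
  have c4 : (a * b * (b * a)).trace = (a * a * (b * b)).trace := by
    rw [cyc a a b b]
  have c6 : (b * a * (a * b)).trace = (a * a * (b * b)).trace := by
    rw [cyc b a a b]
  have c7 : (b * a * (b * a)).trace = (a * b * (a * b)).trace := by
    rw [cyc b a b a]
  rw [c4, c6, c7] at h2
  simp only [Complex.add_re, Complex.sub_re, Complex.zero_re] at h2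
  linarith

/-- the two-frame bound at level `ρ` -/
theorem al_rho {X F H : Matrix κ κ ℂ} (hX : X.IsHermitian) (hF : Fᴴ * F = 1) (hH : Hᴴ * H = 1)
    (x y : κ → ℝ) (hx : ∀ i, 0 ≤ x i) (hy : ∀ j, 0 ≤ y j) (ρ : ℝ) (hr : 0 ≤ ρ)
    (hs : ∀ i j, 0 < x i → 0 < y j → ((Fᴴ * H) i j * (Hᴴ * X * F) j i).re ≤ 0) :
    ∑ i, (2 * x i ^ 2 * (((Fᴴ * X * F) i i).re - ρ) - x i ^ 4) +
      ∑ j, (2 * y j ^ 2 * (((Hᴴ * X * H) j j).re - ρ) - y j ^ 4) ≤
      ∑ k, (max (hX.eigenvalues k - ρ) 0) ^ 2 := by
  set a := cj F x with ha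
  set b := cj H y with hb
  have haH : aᴴ = a := cj_herm F x
  have hbH : bᴴ = b := cj_herm H y
  have hS : (a - b).IsHermitian := by
    show (a - b)ᴴ = a - b
    rw [conjTranspose_sub, haH, hbH]
  refine le_trans ?_ (pb hX hS ρ)
  rw [word4]
  have haa : a * a = cj F (fun i => x i * x i) := cj_mul hF x x
  have hbb : b * b = cj H (fun i => y i * y i) := cj_mul hH y y
  have w40 : ((a * a * (a * a)).trace).re = ∑ i, x i ^ 4 := by
    rw [haa, cj_mul hF, trace_cj1 hF, Complex.re_sum]
    apply Finset.sum_congr rfl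
    intro i _
    rw [Complex.ofReal_re]
    ring
  have w04 : ((b * b * (b * b)).trace).re = ∑ i, y i ^ 4 := by
    rw [hbb, cj_mul hH, trace_cj1 hH, Complex.re_sum]
    apply Finset.sum_congr rfl
    intro i _
    rw [Complex.ofReal_re]
    ring
  have w31 : ((a * a * (a * b)).trace).re = ∑ i, ∑ j, x i ^ 3 * y j * ov F H i j := by
    rw [← Matrix.mul_assoc, haa, ha, cj_mul hF, trace_cj12]
    apply Finset.sum_congr rfl
    intro i _
    apply Finset.sum_congr rfl
    intro j _
    ring
  have w13 : ((a * b * (b * b)).trace).re = ∑ i, ∑ j, x i * y j ^ 3 * ov F H i j := by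
    rw [Matrix.mul_assoc, hbb, hb, cj_mul hH, trace_cj12]
    apply Finset.sum_congr rfl
    intro i _
    apply Finset.sum_congr rfl
    intro j _
    ring
  have w22 : ((a * a * (b * b)).trace).re = ∑ i, ∑ j, x i ^ 2 * y j ^ 2 * ov F H i j := by
    rw [haa, hbb, trace_cj12]
    apply Finset.sum_congr rfl
    intro i _
    apply Finset.sum_congr rfl
    intro j _
    ring
  have w11 : ((a * b).trace).re = ∑ i, ∑ j, x i * y j * ov F H i j := trace_cj12 F H x y
  have hcomm := t11_le haH hbH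
  have z1 : ((X * (a * a)).trace).re = ∑ i, x i ^ 2 * ((Fᴴ * X * F) i i).re := by
    rw [haa, trace_cj, Complex.re_sum]
    apply Finset.sum_congr rfl
    intro i _
    rw [Complex.re_ofReal_mul]
    ring
  have z2 : ((X * (b * b)).trace).re = ∑ i, y i ^ 2 * ((Hᴴ * X * H) i i).re := by
    rw [hbb, trace_cj, Complex.re_sum]
    apply Finset.sum_congr rfl
    intro i _
    rw [Complex.re_ofReal_mul]
    ring
  have z3 : ((X * (a * b)).trace).re ≤ 0 := by
    rw [ha, hb, trace_cj2, Complex.re_sum]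
    apply Finset.sum_nonpos
    intro i _
    rw [Complex.re_sum]
    apply Finset.sum_nonpos
    intro j _
    rw [← Complex.ofReal_mul, Complex.re_ofReal_mul]
    rcases (hx i).eq_or_lt with h | h
    · rw [← h, zero_mul, zero_mul]
    rcases (hy j).eq_or_lt with h' | h'
    · rw [← h', mul_zero, zero_mul]
    exact mul_nonpos_of_nonneg_of_nonpos (mul_nonneg h.le h'.le) (hs i j h h')
  have z4 : ((X * (b * a)).trace).re = ((X * (a * b)).trace).re := by
    have h1 : (X * (b * a)).trace = star ((X * (a * b)).trace) := by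
      rw [← Matrix.trace_conjTranspose, conjTranspose_mul, conjTranspose_mul, haH, hbH, hX.eq,
        Matrix.trace_mul_comm]
    rw [h1]
    exact Complex.conj_re _
  have q1 : ((a * a).trace).re = ∑ i, x i ^ 2 := by
    rw [haa, trace_cj1 hF, Complex.re_sum]
    apply Finset.sum_congr rfl
    intro i _
    rw [Complex.ofReal_re]
    ring
  have q2 : ((b * b).trace).re = ∑ i, y i ^ 2 := by
    rw [hbb, trace_cj1 hH, Complex.re_sum]
    apply Finset.sum_congr rfl
    intro i _
    rw [Complex.ofReal_re]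
    ring
  have q3 : ((b * a).trace).re = ((a * b).trace).re := by rw [Matrix.trace_mul_comm]
  have eS : (a - b) * (a - b) = a * a - a * b - b * a + b * b := by noncomm_ring
  have s1 : ((X * ((a - b) * (a - b))).trace).re = ∑ i, x i ^ 2 * ((Fᴴ * X * F) i i).re +
      ∑ i, y i ^ 2 * ((Hᴴ * X * H) i i).re - 2 * ((X * (a * b)).trace).re := by
    rw [eS, Matrix.mul_add, Matrix.mul_sub, Matrix.mul_sub]
    simp only [Matrix.trace_add, Matrix.trace_sub, Complex.add_re, Complex.sub_re]
    rw [z1, z2, z4]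
    ring
  have s2 : (((a - b) * (a - b)).trace).re = ∑ i, x i ^ 2 + ∑ i, y i ^ 2 -
      2 * ∑ i, ∑ j, x i * y j * ov F H i j := by
    rw [eS]
    simp only [Matrix.trace_add, Matrix.trace_sub, Complex.add_re, Complex.sub_re]
    rw [q1, q2, q3, w11]
    ring
  rw [s1, s2]
  have r4 : ∀ z : ℂ, (4 * z).re = 4 * z.re := fun z => by simp
  have r2 : ∀ z : ℂ, (2 * z).re = 2 * z.re := fun z => by simp
  simp only [Complex.add_re, Complex.sub_re, r4, r2]
  rw [w40, w04, w31, w13, w22] at *
  have hk : 0 ≤ 4 * ρ * ∑ i, ∑ j, x i * y j * ov F H i j +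
      4 * ∑ i, ∑ j, x i ^ 3 * y j * ov F H i j + 4 * ∑ i, ∑ j, x i * y j ^ 3 * ov F H i j -
      6 * ∑ i, ∑ j, x i ^ 2 * y j ^ 2 * ov F H i j := by
    simp only [Finset.mul_sum, ← Finset.sum_add_distrib, ← Finset.sum_sub_distrib]
    apply Finset.sum_nonneg
    intro i _
    apply Finset.sum_nonneg
    intro j _
    have h1 := mul_nonneg (mul_nonneg (hx i) (hy j)) (ov_nonneg F H i j)
    have h2 := mul_nonneg h1 (sq_nonneg (x i - y j))
    have h3 := mul_nonneg h1 (mul_nonneg (hx i) (hy j))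
    have h4 := mul_nonneg hr h1
    nlinarith [h2, h3, h4]
  have f1 : ∑ i, (2 * x i ^ 2 * (((Fᴴ * X * F) i i).re - ρ) - x i ^ 4) =
      2 * ∑ i, x i ^ 2 * ((Fᴴ * X * F) i i).re - 2 * ρ * ∑ i, x i ^ 2 - ∑ i, x i ^ 4 := by
    rw [Finset.mul_sum, Finset.mul_sum, ← Finset.sum_sub_distrib, ← Finset.sum_sub_distrib]
    apply Finset.sum_congr rfl
    intro i _
    ring
  have f2 : ∑ i, (2 * y i ^ 2 * (((Hᴴ * X * H) i i).re - ρ) - y i ^ 4) =
      2 * ∑ i, y i ^ 2 * ((Hᴴ * X * H) i i).re - 2 * ρ * ∑ i, y i ^ 2 - ∑ i, y i ^ 4 := by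
    rw [Finset.mul_sum, Finset.mul_sum, ← Finset.sum_sub_distrib, ← Finset.sum_sub_distrib]
    apply Finset.sum_congr rfl
    intro i _
    ring
  rw [f1, f2]
  nlinarith [hk, hcomm, z3]

end Pool.Agent.Lib_helper28.KS
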