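import Pool.Agent.Lib_helper28.KS.A
import Pool.Agent.Lib_helper32.TF.INE

/-!
# The two-frame lower bound for `Tr X_+^p`, `p > 2`
-/

open scoped BigOperators ComplexOrder MatrixOrder
open Matrix MeasureTheory Set

namespace Pool.Agent.Lib_helper28.KS

open Pool.Agent.RC

variable {κ : Type} [Fintype κ] [DecidableEq κ]

theorem gen {p : ℝ} (hp : 2 < p) {m : ℝ} (hm : 0 ≤ m) (a b c : ℝ) (g : ℝ → ℝ)
    (h1 : ∀ ρ, 0 < ρ → ρ ≤ m → g ρ = ρ ^ (p - 3) * (a + b * ρ + c * ρ ^ 2))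
    (h2 : ∀ ρ, 0 < ρ → m < ρ → g ρ = 0) :
    IntegrableOn g (Ioi 0) ∧
      ∫ ρ in Ioi (0 : ℝ), g ρ = a * (m ^ (p - 2) / (p - 2)) + b * (m ^ (p - 1) / (p - 1)) +
        c * (m ^ p / p) := by
  have e1 : ∀ ρ ∈ Ioc (0 : ℝ) m, a * ρ ^ (p - 3) + b * ρ ^ (p - 2) + c * ρ ^ (p - 1) = g ρ := by
    intro ρ hρ
    rw [h1 ρ hρ.1 hρ.2]
    have f1 : ρ ^ (p - 2) = ρ ^ (p - 3) * ρ := by
      rw [← Real.rpow_add_one hρ.1.ne']; congr 1; ring
    have f2 : ρ ^ (p - 1) = ρ ^ (p - 3) * ρ ^ 2 := by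
      rw [← Real.rpow_natCast ρ 2, ← Real.rpow_add hρ.1]; congr 1; push_cast; ring
    rw [f1, f2]; ring
  have i1 : IntervalIntegrable (fun ρ : ℝ => ρ ^ (p - 3)) volume 0 m :=
    intervalIntegral.intervalIntegrable_rpow' (by linarith)
  have i2 : IntervalIntegrable (fun ρ : ℝ => ρ ^ (p - 2)) volume 0 m :=
    intervalIntegral.intervalIntegrable_rpow' (by linarith)
  have i3 : IntervalIntegrable (fun ρ : ℝ => ρ ^ (p - 1)) volume 0 m :=
    intervalIntegral.intervalIntegrable_rpow' (by linarith)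
  have i4 : IntervalIntegrable (fun ρ : ℝ => a * ρ ^ (p - 3) + b * ρ ^ (p - 2) +
      c * ρ ^ (p - 1)) volume 0 m :=
    ((i1.const_mul a).add (i2.const_mul b)).add (i3.const_mul c)
  have i5 : IntegrableOn g (Ioc 0 m) :=
    ((intervalIntegrable_iff_integrableOn_Ioc_of_le hm).1 i4).congr_fun e1 measurableSet_Ioc
  have hdiff : ∀ ρ ∈ Ioi (0 : ℝ) \ Ioc 0 m, g ρ = 0 := by
    intro ρ hρ
    have h3 : 0 < ρ := hρ.1
    have h4 : m < ρ := by
      by_contra h
      exact hρ.2 ⟨h3, not_lt.1 h⟩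
    exact h2 ρ h3 h4
  have hsub : Ioc (0 : ℝ) m ⊆ Ioi 0 := fun ρ hρ => hρ.1
  refine ⟨?_, ?_⟩
  · rw [← sdiff_union_of_subset hsub]
    refine IntegrableOn.union ?_ i5
    exact integrableOn_zero.congr_fun (fun ρ hρ => (hdiff ρ hρ).symm)
      (measurableSet_Ioi.diff measurableSet_Ioc)
  · rw [setIntegral_eq_of_subset_of_forall_sdiff_eq_zero measurableSet_Ioi hsub hdiff,
      ← setIntegral_congr_fun measurableSet_Ioc e1, ← intervalIntegral.integral_of_le hm,
      intervalIntegral.integral_add ((i1.const_mul a).add (i2.const_mul b)) (i3.const_mul c),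
      intervalIntegral.integral_add (i1.const_mul a) (i2.const_mul b),
      intervalIntegral.integral_const_mul, intervalIntegral.integral_const_mul,
      intervalIntegral.integral_const_mul, integral_rpow (Or.inl (by linarith)),
      integral_rpow (Or.inl (by linarith)), integral_rpow (Or.inl (by linarith))]
    have g1 : (0 : ℝ) ^ (p - 3 + 1) = 0 := Real.zero_rpow (by linarith)
    have g2 : (0 : ℝ) ^ (p - 2 + 1) = 0 := Real.zero_rpow (by linarith)
    have g3 : (0 : ℝ) ^ (p - 1 + 1) = 0 := Real.zero_rpow (by linarith)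
    have k1 : p - 3 + 1 = p - 2 := by ring
    have k2 : p - 2 + 1 = p - 1 := by ring
    have k3 : p - 1 + 1 = p := by ring
    rw [g1, g2, g3, k1, k2, k3]
    simp only [sub_zero]

theorem int_sq {p : ℝ} (hp : 2 < p) (m : ℝ) :
    IntegrableOn (fun ρ : ℝ => ρ ^ (p - 3) * (max (m - ρ) 0) ^ 2) (Ioi 0) ∧
      ∫ ρ in Ioi (0 : ℝ), ρ ^ (p - 3) * (max (m - ρ) 0) ^ 2 =
        2 / ((p - 2) * (p - 1) * p) * INE.pp p m := by
  have h := gen hp (le_max_right m 0) ((max m 0) ^ 2) (-2 * max m 0) 1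
    (fun ρ : ℝ => ρ ^ (p - 3) * (max (m - ρ) 0) ^ 2) ?_ ?_
  · refine ⟨h.1, ?_⟩
    rw [h.2]
    unfold INE.pp
    rcases (le_max_right m 0).eq_or_lt with h0 | h0
    · rw [← h0]
      rw [Real.zero_rpow (by linarith), Real.zero_rpow (by linarith),
        Real.zero_rpow (by linarith)]
      ring
    · have f1 : (max m 0) ^ 2 * (max m 0) ^ (p - 2) = (max m 0) ^ p := by
        rw [← Real.rpow_natCast (max m 0) 2, ← Real.rpow_add h0]; congr 1; push_cast; ring
      have f2 : max m 0 * (max m 0) ^ (p - 1) = (max m 0) ^ p := by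
        conv_lhs => rw [← Real.rpow_one (max m 0)]
        rw [← Real.rpow_mul h0.le, one_mul, ← Real.rpow_add h0]; congr 1; ring
      have hp1 : p - 2 ≠ 0 := by linarith
      have hp2 : p - 1 ≠ 0 := by linarith
      have hp3 : p ≠ 0 := by linarith
      calc (max m 0) ^ 2 * ((max m 0) ^ (p - 2) / (p - 2)) +
            -2 * max m 0 * ((max m 0) ^ (p - 1) / (p - 1)) + 1 * ((max m 0) ^ p / p)
          = ((max m 0) ^ 2 * (max m 0) ^ (p - 2)) / (p - 2) -
            2 * (max m 0 * (max m 0) ^ (p - 1)) / (p - 1) + (max m 0) ^ p / p := by ring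
        _ = _ := by
          rw [f1, f2]
          field_simp
          ring
  · intro ρ h0 h1
    have h2 : 0 < max m 0 := lt_of_lt_of_le h0 h1
    have h3 : 0 < m := by
      rcases lt_max_iff.1 h2 with h | h
      · exact h
      · exact absurd h (lt_irrefl _)
    have h4 : max m 0 = m := max_eq_left h3.le
    rw [h4] at h1 ⊢
    have h5 : max (m - ρ) 0 = m - ρ := max_eq_left (by linarith)
    show ρ ^ (p - 3) * (max (m - ρ) 0) ^ 2 = _
    rw [h5]
    ring
  · intro ρ h0 h1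
    have h2 : m < ρ := lt_of_le_of_lt (le_max_left m 0) h1
    have h5 : max (m - ρ) 0 = 0 := max_eq_right (by linarith)
    show ρ ^ (p - 3) * (max (m - ρ) 0) ^ 2 = 0
    rw [h5]
    ring

theorem int_lin {p : ℝ} (hp : 2 < p) {y : ℝ} (hy : 0 ≤ y) (x : ℝ) :
    IntegrableOn (fun ρ : ℝ => ρ ^ (p - 3) *
        (2 * max (y - ρ) 0 * (x - ρ) - (max (y - ρ) 0) ^ 2)) (Ioi 0) ∧
      ∫ ρ in Ioi (0 : ℝ), ρ ^ (p - 3) * (2 * max (y - ρ) 0 * (x - ρ) - (max (y - ρ) 0) ^ 2) =
        2 / ((p - 2) * (p - 1) * p) * (p * y ^ (p - 1) * x - (p - 1) * y ^ p) := by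
  have h := gen hp hy (y * (2 * x - y)) (-2 * x) 1
    (fun ρ : ℝ => ρ ^ (p - 3) * (2 * max (y - ρ) 0 * (x - ρ) - (max (y - ρ) 0) ^ 2)) ?_ ?_
  · refine ⟨h.1, ?_⟩
    rw [h.2]
    rcases hy.eq_or_lt with h0 | h0
    · rw [← h0]
      rw [Real.zero_rpow (by linarith), Real.zero_rpow (by linarith),
        Real.zero_rpow (by linarith)]
      ring
    · have f0 : y * y ^ (p - 2) = y ^ (p - 1) := by
        conv_lhs => rw [← Real.rpow_one y]
        rw [← Real.rpow_mul h0.le, one_mul, ← Real.rpow_add h0]; congr 1; ring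
      have f2 : y * y ^ (p - 1) = y ^ p := by
        conv_lhs => rw [← Real.rpow_one y]
        rw [← Real.rpow_mul h0.le, one_mul, ← Real.rpow_add h0]; congr 1; ring
      have hp1 : p - 2 ≠ 0 := by linarith
      have hp2 : p - 1 ≠ 0 := by linarith
      have hp3 : p ≠ 0 := by linarith
      calc y * (2 * x - y) * (y ^ (p - 2) / (p - 2)) + -2 * x * (y ^ (p - 1) / (p - 1)) +
            1 * (y ^ p / p)
          = (2 * x - y) * (y * y ^ (p - 2)) / (p - 2) - 2 * x * y ^ (p - 1) / (p - 1) +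
            y ^ p / p := by ring
        _ = (2 * x * y ^ (p - 1) - y * y ^ (p - 1)) / (p - 2) - 2 * x * y ^ (p - 1) / (p - 1) +
            y ^ p / p := by rw [f0]; ring
        _ = _ := by
          rw [f2]
          field_simp
          ring
  · intro ρ h0 h1
    have h5 : max (y - ρ) 0 = y - ρ := max_eq_left (by linarith)
    show ρ ^ (p - 3) * (2 * max (y - ρ) 0 * (x - ρ) - (max (y - ρ) 0) ^ 2) = _
    rw [h5]
    ring
  · intro ρ h0 h1
    have h5 : max (y - ρ) 0 = 0 := max_eq_right (by linarith)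
    show ρ ^ (p - 3) * (2 * max (y - ρ) 0 * (x - ρ) - (max (y - ρ) 0) ^ 2) = 0
    rw [h5]
    ring

/-- the two-frame bound, `p > 2` -/
theorem al {X F H : Matrix κ κ ℂ} (hX : X.IsHermitian) (hF : Fᴴ * F = 1) (hH : Hᴴ * H = 1)
    (r s : κ → ℝ) (hr : ∀ i, 0 ≤ r i) (hs0 : ∀ j, 0 ≤ s j) (p : ℝ) (hp : 2 < p)
    (hs : ∀ i j, 0 < r i → 0 < s j → ((Fᴴ * H) i j * (Hᴴ * X * F) j i).re ≤ 0) :
    ∑ i, (p * r i ^ (p - 1) * ((Fᴴ * X * F) i i).re - (p - 1) * r i ^ p) +
      ∑ j, (p * s j ^ (p - 1) * ((Hᴴ * X * H) j j).re - (p - 1) * s j ^ p) ≤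
      trF (INE.pp p) X := by
  set c : ℝ := 2 / ((p - 2) * (p - 1) * p) with hc
  have hc0 : 0 < c := by
    have h1 : 0 < p - 2 := by linarith
    have h2 : 0 < p - 1 := by linarith
    have h3 : 0 < p := by linarith
    positivity
  have hI1 := fun i => int_lin hp (hr i) (((Fᴴ * X * F) i i).re)
  have hI2 := fun j => int_lin hp (hs0 j) (((Hᴴ * X * H) j j).re)
  have hI3 := fun k => int_sq hp (hX.eigenvalues k)
  have key : ∫ ρ in Ioi (0 : ℝ), (∑ i, ρ ^ (p - 3) * (2 * max (r i - ρ) 0 *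
        (((Fᴴ * X * F) i i).re - ρ) - (max (r i - ρ) 0) ^ 2) +
      ∑ j, ρ ^ (p - 3) * (2 * max (s j - ρ) 0 *
        (((Hᴴ * X * H) j j).re - ρ) - (max (s j - ρ) 0) ^ 2)) ≤
      ∫ ρ in Ioi (0 : ℝ), ∑ k, ρ ^ (p - 3) * (max (hX.eigenvalues k - ρ) 0) ^ 2 := by
    apply setIntegral_mono_on
    · exact (integrable_finsetSum _ fun i _ => (hI1 i).1).add
        (integrable_finsetSum _ fun j _ => (hI2 j).1)
    · exact integrable_finsetSum _ fun k _ => (hI3 k).1
    · exact measurableSet_Ioi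
    · intro ρ hρ
      have hρ0 : 0 < ρ := hρ
      have h := al_rho hX hF hH (fun i => Real.sqrt (max (r i - ρ) 0))
        (fun j => Real.sqrt (max (s j - ρ) 0)) (fun i => Real.sqrt_nonneg _)
        (fun j => Real.sqrt_nonneg _) ρ hρ0.le (by
          intro i j hi hj
          have hi' := Real.sqrt_pos.1 hi
          have hj' := Real.sqrt_pos.1 hj
          rcases lt_max_iff.1 hi' with h1 | h1
          · rcases lt_max_iff.1 hj' with h2 | h2
            · exact hs i j (by linarith) (by linarith)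
            · exact absurd h2 (lt_irrefl _)
          · exact absurd h1 (lt_irrefl _))
      have hw : 0 ≤ ρ ^ (p - 3) := Real.rpow_nonneg hρ0.le _
      have h' := mul_le_mul_of_nonneg_left h hw
      rw [mul_add, Finset.mul_sum, Finset.mul_sum, Finset.mul_sum] at h'
      have q : ∀ t : ℝ, Real.sqrt (max t 0) ^ 2 = max t 0 := fun t =>
        Real.sq_sqrt (le_max_right _ _)
      have q4 : ∀ t : ℝ, Real.sqrt (max t 0) ^ 4 = (max t 0) ^ 2 := fun t => by
        have : Real.sqrt (max t 0) ^ 4 = (Real.sqrt (max t 0) ^ 2) ^ 2 := by ring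
        rw [this, q]
      simp only [q, q4] at h'
      exact h'
  rw [integral_add (integrable_finsetSum _ fun i _ => (hI1 i).1)
      (integrable_finsetSum _ fun j _ => (hI2 j).1),
    integral_finsetSum _ (fun i _ => (hI1 i).1), integral_finsetSum _ (fun j _ => (hI2 j).1),
    integral_finsetSum _ (fun k _ => (hI3 k).1)] at key
  simp only [(hI1 _).2, (hI2 _).2, (hI3 _).2] at key
  rw [← Finset.mul_sum, ← Finset.mul_sum, ← Finset.mul_sum, ← mul_add] at key
  have := le_of_mul_le_mul_left key hc0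
  unfold trF
  rw [dif_pos hX]
  exact this

end Pool.Agent.Lib_helper28.KS
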